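import Mathlib

/-!
# A descent of Cassels and Pfister for pencils of quadrics

`K` a field, `q(c, l) = φ(c) + l G(c) + l² H` with `φ` a quadratic form over `K[X]` whose matrix has
entries of degree one, `G` of degree two and `H` of degree three (this is `F(c, l y) / l` for a cubic
form `F` and `y = a + X b`). If the leading form of `φ` is anisotropic over `K`, then a zero `(c, l)`,
`l ≠ 0`, of `q` over `K[X]` gives a zero `(w, 1)` with `w` of degree at most one.
-/

set_option autoImplicit false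

namespace Pool.Agent.U247.CP

open Polynomial Finset

variable {K : Type*} [Field K] {κ : Type*} [Fintype κ]

/-- the quadratic form with the matrix `S0 + X S1` -/
noncomputable def ph (S0 S1 : κ → κ → K) (r : κ → K[X]) : K[X] :=
  ∑ i, ∑ j, (C (S0 i j) + X * C (S1 i j)) * (r i * r j)

/-- its polar form -/
noncomputable def pb (S0 S1 : κ → κ → K) (r s : κ → K[X]) : K[X] :=
  ∑ i, ∑ j, (C (S0 i j) + X * C (S1 i j)) * (r i * s j + s i * r j)

theorem ph_add (S0 S1 : κ → κ → K) (l g : K[X]) (w r : κ → K[X]) :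
    ph S0 S1 (fun i => l * w i + g * r i) =
      l ^ 2 * ph S0 S1 w + l * g * pb S0 S1 w r + g ^ 2 * ph S0 S1 r := by
  unfold ph pb
  simp only [mul_sum, ← sum_add_distrib]
  refine sum_congr rfl fun i _ => sum_congr rfl fun j _ => ?_
  ring

theorem ph_smul (S0 S1 : κ → κ → K) (l : K[X]) (w : κ → K[X]) :
    ph S0 S1 (fun i => l * w i) = l ^ 2 * ph S0 S1 w := by
  unfold ph
  simp only [mul_sum]
  refine sum_congr rfl fun i _ => sum_congr rfl fun j _ => ?_
  ring

theorem coeff_ph (S0 S1 : κ → κ → K) (r : κ → K[X]) (f : ℕ) (hr : ∀ i, (r i).natDegree ≤ f) :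
    (ph S0 S1 r).coeff (2 * f + 1) =
      ∑ i, ∑ j, S1 i j * ((r i).coeff f * (r j).coeff f) := by
  unfold ph
  rw [finsetSum_coeff]
  refine sum_congr rfl fun i _ => ?_
  rw [finsetSum_coeff]
  refine sum_congr rfl fun j _ => ?_
  have h1 : (r i * r j).natDegree ≤ 2 * f := by
    refine natDegree_mul_le.trans ?_
    have := hr i
    have := hr j
    omega
  rw [add_mul, coeff_add, coeff_C_mul, coeff_eq_zero_of_natDegree_lt (lt_of_le_of_lt h1 (by omega)),
    mul_zero, zero_add, mul_assoc, coeff_X_mul, coeff_C_mul, two_mul,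
    coeff_mul_add_eq_of_natDegree_le (hr i) (hr j)]

theorem exists_top (r : κ → K[X]) (hr : r ≠ 0) :
    ∃ f : ℕ, (∀ i, (r i).natDegree ≤ f) ∧ (fun i => (r i).coeff f) ≠ 0 := by
  classical
  obtain ⟨i1, hi1⟩ := Function.ne_iff.1 hr
  have hi1' : r i1 ≠ 0 := hi1
  obtain ⟨i0, -, hi0⟩ := exists_max_image univ (fun i => (r i).natDegree) ⟨i1, mem_univ _⟩
  refine ⟨(r i0).natDegree, fun i => hi0 i (mem_univ _), fun h => ?_⟩
  by_cases h0 : r i0 = 0
  · have h1 := hi0 i1 (mem_univ _)
    rw [h0, natDegree_zero, Nat.le_zero] at h1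
    have h2 := congrFun h i1
    simp only [Pi.zero_apply] at h2
    rw [h0, natDegree_zero, ← h1] at h2
    exact hi1' (leadingCoeff_eq_zero.1 h2)
  · have h2 := congrFun h i0
    exact h0 (leadingCoeff_eq_zero.1 h2)

/-- anisotropy over `K[X]` -/
theorem ani {S0 S1 : κ → κ → K}
    (hS : ∀ r : κ → K, ∑ i, ∑ j, S1 i j * (r i * r j) = 0 → r = 0) (r : κ → K[X])
    (h : ph S0 S1 r = 0) : r = 0 := by
  by_contra hr
  obtain ⟨f, hf, hne⟩ := exists_top r hr
  apply hne
  apply hS
  rw [← coeff_ph S0 S1 r f hf, h, coeff_zero]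

/-- the form `q` -/
noncomputable def qq (S0 S1 : κ → κ → K) (G : κ → K[X]) (H : K[X]) (c : κ → K[X]) (l : K[X]) :
    K[X] := ph S0 S1 c + l * ∑ i, G i * c i + l ^ 2 * H

theorem qq_smul (S0 S1 : κ → κ → K) (G : κ → K[X]) (H : K[X]) (w : κ → K[X]) (l : K[X]) :
    qq S0 S1 G H (fun i => l * w i) l = l ^ 2 * qq S0 S1 G H w 1 := by
  unfold qq
  rw [ph_smul]
  have h1 : ∑ i, G i * (l * w i) = l * ∑ i, G i * w i := by
    rw [mul_sum]
    exact sum_congr rfl fun i _ => by ring
  rw [h1]
  ring

theorem red {S0 S1 : κ → κ → K}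
    (hS : ∀ r : κ → K, ∑ i, ∑ j, S1 i j * (r i * r j) = 0 → r = 0) (G : κ → K[X]) (H : K[X]) :
    ∀ (d : ℕ) (c : κ → K[X]) (l : K[X]), l ≠ 0 → l.natDegree ≤ d → qq S0 S1 G H c l = 0 →
      ∃ w : κ → K[X], qq S0 S1 G H w 1 = 0 := by
  intro d
  induction d with
  | zero =>
    intro c l hl hd h
    obtain ⟨a, rfl⟩ : ∃ a : K, l = C a := ⟨_, eq_C_of_natDegree_le_zero hd⟩
    have ha : a ≠ 0 := fun h0 => hl (by rw [h0, C_0])
    refine ⟨fun i => C a⁻¹ * c i, ?_⟩
    have h1 : (fun i => C a * (C a⁻¹ * c i)) = c := by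
      funext i
      rw [← mul_assoc, ← C_mul, mul_inv_cancel₀ ha, C_1, one_mul]
    have h2 := qq_smul S0 S1 G H (fun i => C a⁻¹ * c i) (C a)
    rw [h1, h] at h2
    exact (mul_eq_zero.1 h2.symm).resolve_left (pow_ne_zero _ hl)
  | succ d ih =>
    intro c l hl hd h
    by_cases hd' : l.natDegree ≤ d
    · exact ih c l hl hd' h
    have hld : l.natDegree = d + 1 := by omega
    set w : κ → K[X] := fun i => c i / l with hw
    set r : κ → K[X] := fun i => c i % l with hr
    have hc : c = fun i => l * w i + 1 * r i := by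
      funext i
      rw [one_mul]
      exact (EuclideanDomain.div_add_mod (c i) l).symm
    by_cases hr0 : r = 0
    · refine ⟨w, ?_⟩
      have h1 : c = fun i => l * w i := by
        rw [hc, hr0]
        funext i
        simp
      rw [h1, qq_smul] at h
      exact (mul_eq_zero.1 h).resolve_left (pow_ne_zero _ hl)
    have hrd : ∀ i, (r i).natDegree ≤ d := by
      intro i
      by_cases h0 : r i = 0
      · rw [h0, natDegree_zero]
        exact Nat.zero_le _
      · have h1 : (r i).degree < l.degree := degree_mod_lt (c i) hl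
        have h2 := natDegree_lt_natDegree h0 h1
        omega
    have hphr : ph S0 S1 r ≠ 0 := fun h0 => hr0 (ani hS r h0)
    set b : K[X] := pb S0 S1 w r + ∑ i, G i * r i with hb
    set e : K[X] := qq S0 S1 G H w 1 with he
    -- the equation
    have heq : l ^ 2 * e + l * b + ph S0 S1 r = 0 := by
      rw [← h, hc]
      unfold qq
      rw [ph_add]
      have h1 : ∑ i, G i * (l * w i + 1 * r i) = l * ∑ i, G i * w i + ∑ i, G i * r i := by
        rw [mul_sum, ← sum_add_distrib]
        exact sum_congr rfl fun i _ => by ring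
      rw [h1, he, hb]
      unfold qq
      ring
    set l' : K[X] := -(l * e + b) with hl'
    have hphl : ph S0 S1 r = l * l' := by
      rw [hl']
      linear_combination heq
    have hl'0 : l' ≠ 0 := by
      intro h0
      rw [h0, mul_zero] at hphl
      exact hphr hphl
    have hdeg : l'.natDegree ≤ d := by
      have h1 : (ph S0 S1 r).natDegree ≤ 2 * d + 1 := by
        unfold ph
        refine natDegree_sum_le_of_forall_le _ _ fun i _ => ?_
        refine natDegree_sum_le_of_forall_le _ _ fun j _ => ?_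
        have h3 : (C (S0 i j) + X * C (S1 i j)).natDegree ≤ 1 := by
          compute_degree
        have h4 : (r i * r j).natDegree ≤ d + d :=
          natDegree_mul_le.trans (Nat.add_le_add (hrd i) (hrd j))
        refine natDegree_mul_le.trans ?_
        omega
      rw [hphl, natDegree_mul hl hl'0, hld] at h1
      omega
    refine ih (fun i => l' * w i + e * r i) l' hl'0 hdeg ?_
    unfold qq
    rw [ph_add, hphl]
    have h1 : ∑ i, G i * (l' * w i + e * r i) = l' * ∑ i, G i * w i + e * ∑ i, G i * r i := by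
      rw [mul_sum, mul_sum, ← sum_add_distrib]
      exact sum_congr rfl fun i _ => by ring
    rw [h1]
    have h2 : ph S0 S1 w = e - (∑ i, G i * w i) - H := by
      rw [he]
      unfold qq
      ring
    have h3 : pb S0 S1 w r = b - ∑ i, G i * r i := by
      rw [hb]
      ring
    rw [h2, h3]
    have h4 : b = -l' - l * e := by
      rw [hl']
      ring
    rw [h4]
    ring

/-- **The descent.** -/
theorem descent {S0 S1 : κ → κ → K}
    (hS : ∀ r : κ → K, ∑ i, ∑ j, S1 i j * (r i * r j) = 0 → r = 0) (G : κ → K[X])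
    (hG : ∀ i, (G i).natDegree ≤ 2) (H : K[X]) (hH : H.natDegree ≤ 3)
    (c : κ → K[X]) (l : K[X]) (hl : l ≠ 0) (h : qq S0 S1 G H c l = 0) :
    ∃ w : κ → K[X], (∀ i, (w i).natDegree ≤ 1) ∧ qq S0 S1 G H w 1 = 0 := by
  obtain ⟨w, hw⟩ := red hS G H _ c l hl le_rfl h
  refine ⟨w, ?_, hw⟩
  by_contra hcon
  push Not at hcon
  obtain ⟨i1, hi1⟩ := hcon
  have hw0 : w ≠ 0 := by
    rintro rfl
    simp at hi1
  obtain ⟨f, hf, hne⟩ := exists_top w hw0
  have hf2 : 2 ≤ f := by
    have := hf i1
    omega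
  apply hne
  apply hS
  rw [← coeff_ph S0 S1 w f hf]
  have h1 : ph S0 S1 w = -(∑ i, G i * w i) - H := by
    unfold qq at hw
    linear_combination hw
  rw [h1, coeff_sub, coeff_neg, finsetSum_coeff]
  have h2 : ∀ i, (G i * w i).coeff (2 * f + 1) = 0 := by
    intro i
    apply coeff_eq_zero_of_natDegree_lt
    refine lt_of_le_of_lt natDegree_mul_le ?_
    have := hG i
    have := hf i
    omega
  have h3 : H.coeff (2 * f + 1) = 0 := by
    apply coeff_eq_zero_of_natDegree_lt
    omega
  rw [sum_eq_zero fun i _ => h2 i, h3]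
  ring

end Pool.Agent.U247.CP
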