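import Mathlib
import Pool.Agent.U247.CP.Desc
import Pool.Agent.N150.CF.Par

/-!
# From a rational section to lines (adapted coordinates)
-/

set_option autoImplicit false

namespace Pool.Agent.U247.CP

open MvPolynomial Pool.Agent.TH314.PD IntermediateField Module Pool.Agent.R845.E3
open Pool.Agent.Y201.C3 Pool.Agent.N150.CF

noncomputable section

variable {k m : ℕ}

/-- the polar forms of a generic point of the base have no zero in `W` over a purely transcendental
extension -/
theorem ani_gen {F : MvPolynomial (Fin (k + 1 + (m + 1))) ℂ} (hF : F.IsHomogeneous 3) (hsm : Sm F)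
    (hW : VanW F) {K : Type} [Field K] [Algebra ℂ K] {ι : Type} (b : Fin (m + 1) → K) (c : ι → K)
    (hind : AlgebraicIndependent ℂ (Sum.elim b c))
    (htop : adjoin ℂ (Set.range b ∪ Set.range c) = ⊤) (r : Fin (k + 1) → K)
    (h : ∑ j, b j * aeval (Fin.append r (0 : Fin (m + 1) → K))
      (pderiv (Fin.natAdd (k + 1) j) F) = 0) : r = 0 := by
  by_contra hr
  let Φ : Fin (m + 1) → MvPolynomial (Fin (k + 1)) ℂ := fun j =>
    aeval (Fin.append (X : Fin (k + 1) → MvPolynomial (Fin (k + 1)) ℂ) 0)
      (pderiv (Fin.natAdd (k + 1) j) F)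
  have hΦ : ∀ j, (Φ j).IsHomogeneous 2 := by
    intro j
    have h1 : (pderiv (Fin.natAdd (k + 1) j) F).IsHomogeneous (3 - 1) := hF.pderiv
    have h2 := h1.aeval (Fin.append (X : Fin (k + 1) → MvPolynomial (Fin (k + 1)) ℂ) 0) (n := 1)
      (by
        intro i
        refine Fin.addCases (fun i => ?_) (fun i => ?_) i
        · rw [Fin.append_left]
          exact isHomogeneous_X _ _
        · rw [Fin.append_right]
          exact isHomogeneous_zero _ _ _)
    exact h2
  have hBp : Pool.Agent.Y201.LI.Bpf ∅ Φ := by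
    intro κ _ φ z _ hz
    exact bpf_van F hF hsm hW φ z hz
  have hev : ∀ j, eval₂ ((algebraMap K K).comp (algebraMap ℂ K)) r (Φ j) =
      aeval (Fin.append r 0) (pderiv (Fin.natAdd (k + 1) j) F) := by
    intro j
    have h1 : (algebraMap K K).comp (algebraMap ℂ K) = algebraMap ℂ K := by
      ext z
      rfl
    rw [h1]
    change aeval r (aeval _ (pderiv (Fin.natAdd (k + 1) j) F)) = _
    rw [comp_aeval_apply]
    congr 2
    funext i
    refine Fin.addCases (fun i => ?_) (fun i => ?_) i
    · rw [Fin.append_left, Fin.append_left, aeval_X]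
    · rw [Fin.append_right, Fin.append_right, Pi.zero_apply, Pi.zero_apply, map_zero]
  have h2 := Pool.Agent.Y201.LI.hone ℂ (k + 1) 2 (m + 1) ∅ Φ (by simp) hΦ hBp ι K K b c hind htop
    r hr (by simp) (by
      rw [← h]
      refine Finset.sum_congr rfl fun j _ => ?_
      rw [hev]
      rfl)
  rw [finrank_self] at h2
  omega

variable {R : Type} [CommRing R] [Algebra ℂ R]

theorem bg_expand {N : ℕ} {T : Fin N → Fin N → Fin N → ℂ} (hT : SymG T) (P Q : Fin N → R) (l : R) :
    Bg T (fun s => P s + l * Q s) (fun s => P s + l * Q s) (fun s => P s + l * Q s) =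
      Bg T P P P + l * (3 * Bg T P P Q) + l ^ 2 * (3 * Bg T P Q Q) + l ^ 3 * Bg T Q Q Q := by
  have e1 := Bg_add1 T P (fun s => l * Q s)
  have e2 := Bg_add2 T (R := R)
  have e3 := Bg_add3 T (R := R)
  rw [Bg_add1, Bg_smul1]
  simp only [Bg_add2, Bg_smul2, Bg_add3, Bg_smul3]
  have s1 : Bg T P Q P = Bg T P P Q := Bg_swap23 hT _ _ _
  have s2 : Bg T Q P P = Bg T P P Q := by rw [Bg_swap12 hT, s1]
  have s3 : Bg T Q P Q = Bg T P Q Q := Bg_swap12 hT _ _ _
  have s4 : Bg T Q Q P = Bg T P Q Q := by rw [Bg_swap23 hT, s3]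
  rw [s1, s2, s3, s4]
  ring

/-- the unit vectors -/
def un (R : Type) [CommRing R] (k m : ℕ) (i : Fin (k + 1)) : Fin (k + 1 + (m + 1)) → R :=
  fun s => if s = Fin.castAdd (m + 1) i then 1 else 0

theorem append_un (r : Fin (k + 1) → R) :
    Fin.append r (0 : Fin (m + 1) → R) = fun s => ∑ i, r i * un R k m i s := by
  funext s
  unfold un
  refine Fin.addCases (fun i => ?_) (fun j => ?_) s
  · rw [Fin.append_left, Finset.sum_eq_single i]
    · rw [if_pos rfl, mul_one]
    · intro i' _ h
      rw [if_neg (fun h' => h (Fin.castAdd_injective _ _ h').symm), mul_zero]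
    · intro h
      exact absurd (Finset.mem_univ _) h
  · rw [Fin.append_right, Pi.zero_apply, Finset.sum_eq_zero]
    intro i _
    rw [if_neg, mul_zero]
    intro h
    have := congrArg Fin.val h
    simp at this
    omega

theorem bg_un2 {T : Fin (k + 1 + (m + 1)) → Fin (k + 1 + (m + 1)) → Fin (k + 1 + (m + 1)) → ℂ}
    (r : Fin (k + 1) → R) (Q Q' : Fin (k + 1 + (m + 1)) → R) :
    Bg T (Fin.append r 0) Q Q' = ∑ i, r i * Bg T (un R k m i) Q Q' := by
  rw [append_un, Bg_sum1]
  exact Finset.sum_congr rfl fun i _ => Bg_smul1 _ _ _ _ _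

theorem bg_un3 {T : Fin (k + 1 + (m + 1)) → Fin (k + 1 + (m + 1)) → Fin (k + 1 + (m + 1)) → ℂ}
    (hT : SymG T) (r : Fin (k + 1) → R) (Q : Fin (k + 1 + (m + 1)) → R) :
    Bg T (Fin.append r 0) (Fin.append r 0) Q =
      ∑ i, ∑ j, Bg T (un R k m i) (un R k m j) Q * (r i * r j) := by
  rw [bg_un2]
  refine Finset.sum_congr rfl fun i _ => ?_
  rw [Bg_swap12 hT, bg_un2, Finset.mul_sum]
  refine Finset.sum_congr rfl fun j _ => ?_
  rw [Bg_swap12 hT]
  ring

theorem natDegree_bg {N : ℕ} {K : Type} [Field K] [Algebra ℂ K]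
    (T : Fin N → Fin N → Fin N → ℂ) (x y z : Fin N → Polynomial K) (p q r : ℕ)
    (hx : ∀ s, (x s).natDegree ≤ p) (hy : ∀ s, (y s).natDegree ≤ q)
    (hz : ∀ s, (z s).natDegree ≤ r) : (Bg T x y z).natDegree ≤ p + q + r := by
  unfold Bg
  refine Polynomial.natDegree_sum_le_of_forall_le _ _ fun a _ => ?_
  refine Polynomial.natDegree_sum_le_of_forall_le _ _ fun b _ => ?_
  refine Polynomial.natDegree_sum_le_of_forall_le _ _ fun c _ => ?_
  have h0 : (algebraMap ℂ (Polynomial K) (T a b c)).natDegree = 0 := by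
    rw [IsScalarTower.algebraMap_apply ℂ K (Polynomial K)]
    exact Polynomial.natDegree_C _
  refine Polynomial.natDegree_mul_le.trans (Nat.add_le_add ?_ (hz c))
  refine Polynomial.natDegree_mul_le.trans (Nat.add_le_add ?_ (hy b))
  refine Polynomial.natDegree_mul_le.trans ?_
  rw [h0, zero_add]
  exact hx a

/-- the point `a + X b` -/
def ln {K : Type} [Field K] {N : ℕ} (a b : Fin N → K) : Fin N → Polynomial K :=
  fun s => Polynomial.C (a s) + Polynomial.X * Polynomial.C (b s)

theorem ln_append {K : Type} [Field K] (u0 u1 : Fin (k + 1) → K) (a b : Fin (m + 1) → K) :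
    ln (Fin.append u0 a) (Fin.append u1 b) = Fin.append (ln u0 u1) (ln a b) := by
  funext s
  unfold ln
  refine Fin.addCases (fun i => ?_) (fun j => ?_) s
  · rw [Fin.append_left, Fin.append_left, Fin.append_left]
  · rw [Fin.append_right, Fin.append_right, Fin.append_right]

theorem natDegree_ln {K : Type} [Field K] {N : ℕ} (a b : Fin N → K) (s : Fin N) :
    (ln a b s).natDegree ≤ 1 := by
  unfold ln
  compute_degree

theorem bg_C {K : Type} [Field K] [Algebra ℂ K] {N : ℕ} (T : Fin N → Fin N → Fin N → ℂ)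
    (x y z : Fin N → K) :
    Bg T (fun i => Polynomial.C (x i)) (fun i => Polynomial.C (y i))
      (fun i => Polynomial.C (z i)) = Polynomial.C (Bg T x y z) :=
  (map_Bg (Polynomial.CAlgHom : K →ₐ[ℂ] Polynomial K) T x y z).symm

/-- the descent for a section over a line -/
theorem line_of_sec {F : MvPolynomial (Fin (k + 1 + (m + 1))) ℂ} (hF : F.IsHomogeneous 3)
    (hW : VanW F) {K : Type} [Field K] [Algebra ℂ K] (a b : Fin (m + 1) → K)
    (hani : ∀ r : Fin (k + 1) → K, ∑ j, b j * aeval (Fin.append r (0 : Fin (m + 1) → K))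
      (pderiv (Fin.natAdd (k + 1) j) F) = 0 → r = 0)
    (c : Fin (k + 1) → Polynomial K) (l : Polynomial K) (hl : l ≠ 0)
    (h : aeval (Fin.append c (fun j => l * ln a b j)) F = 0) :
    ∃ u0 u1 : Fin (k + 1) → K, aeval (ln (Fin.append u0 a) (Fin.append u1 b)) F = 0 := by
  classical
  obtain ⟨T, hT, hFT⟩ := exists_tri F hF
  set Q : Fin (k + 1 + (m + 1)) → Polynomial K := Fin.append 0 (ln a b) with hQ
  -- the forms
  set S0 : Fin (k + 1) → Fin (k + 1) → K := fun i j =>
    3 * Bg T (un K k m i) (un K k m j) (Fin.append 0 a) with hS0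
  set S1 : Fin (k + 1) → Fin (k + 1) → K := fun i j =>
    3 * Bg T (un K k m i) (un K k m j) (Fin.append 0 b) with hS1
  set G : Fin (k + 1) → Polynomial K := fun i => 3 * Bg T (un (Polynomial K) k m i) Q Q with hG
  set H : Polynomial K := Bg T Q Q Q with hH
  have hQC : Q = fun s => Polynomial.C (Fin.append (0 : Fin (k + 1) → K) a s) +
      Polynomial.X * Polynomial.C (Fin.append (0 : Fin (k + 1) → K) b s) := by
    rw [hQ]
    have h1 := ln_append (0 : Fin (k + 1) → K) 0 a b
    have h2 : (ln (0 : Fin (k + 1) → K) 0) = 0 := by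
      funext i
      simp [ln]
    rw [h2] at h1
    rw [← h1]
    rfl
  have hunC : ∀ i, un (Polynomial K) k m i = fun s => Polynomial.C (un K k m i s) := by
    intro i
    funext s
    unfold un
    split_ifs
    · exact Polynomial.C_1.symm
    · exact Polynomial.C_0.symm
  have hS : ∀ i j, 3 * Bg T (un (Polynomial K) k m i) (un (Polynomial K) k m j) Q =
      Polynomial.C (S0 i j) + Polynomial.X * Polynomial.C (S1 i j) := by
    intro i j
    rw [hQC, Bg_add3, Bg_smul3, hunC, hunC, bg_C, bg_C, hS0, hS1]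
    simp only [map_mul]
    have h3 : (Polynomial.C (3 : K)) = 3 := rfl
    rw [h3]
    ring
  have hexp : ∀ (c : Fin (k + 1) → Polynomial K) (l : Polynomial K),
      aeval (Fin.append c (fun j => l * ln a b j)) F = l * qq S0 S1 G H c l := by
    intro c l
    have e1 : Fin.append c (fun j => l * ln a b j) =
        fun s => Fin.append c (0 : Fin (m + 1) → Polynomial K) s + l * Q s := by
      funext s
      rw [hQ]
      refine Fin.addCases (fun i => ?_) (fun j => ?_) s
      · rw [Fin.append_left, Fin.append_left, Fin.append_left, Pi.zero_apply, mul_zero, add_zero]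
      · rw [Fin.append_right, Fin.append_right, Fin.append_right, Pi.zero_apply, zero_add]
    have e2 : Bg T (Fin.append c (0 : Fin (m + 1) → Polynomial K)) (Fin.append c 0)
        (Fin.append c 0) = 0 := by
      have := vanW_aeval hW c
      rwa [hFT, aeval_frmG] at this
    have e3 : 3 * Bg T (Fin.append c (0 : Fin (m + 1) → Polynomial K)) (Fin.append c 0) Q =
        ph S0 S1 c := by
      rw [bg_un3 hT, Finset.mul_sum]
      unfold ph
      refine Finset.sum_congr rfl fun i _ => ?_
      rw [Finset.mul_sum]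
      refine Finset.sum_congr rfl fun j _ => ?_
      rw [← mul_assoc, hS]
    have e4 : 3 * Bg T (Fin.append c (0 : Fin (m + 1) → Polynomial K)) Q Q =
        ∑ i, G i * c i := by
      rw [bg_un2, Finset.mul_sum]
      refine Finset.sum_congr rfl fun i _ => ?_
      rw [hG]
      ring
    rw [e1]
    conv_lhs => rw [hFT]
    rw [aeval_frmG, bg_expand hT, e2, e3, e4]
    unfold qq
    ring
  have hSani : ∀ r : Fin (k + 1) → K, ∑ i, ∑ j, S1 i j * (r i * r j) = 0 → r = 0 := by
    intro r hr
    apply hani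
    rw [← hr]
    have e5 : 3 * Bg T (Fin.append r (0 : Fin (m + 1) → K)) (Fin.append r 0)
        (Fin.append 0 b) = ∑ i, ∑ j, S1 i j * (r i * r j) := by
      rw [bg_un3 hT, Finset.mul_sum]
      refine Finset.sum_congr rfl fun i _ => ?_
      rw [Finset.mul_sum]
      refine Finset.sum_congr rfl fun j _ => ?_
      rw [hS1]
      ring
    rw [← e5]
    have e6 : ∀ j : Fin (m + 1), aeval (Fin.append r (0 : Fin (m + 1) → K))
        (pderiv (Fin.natAdd (k + 1) j) F) = 3 * Bg T
          (fun s => if s = Fin.natAdd (k + 1) j then (1 : K) else 0) (Fin.append r 0)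
          (Fin.append r 0) := by
      intro j
      conv_lhs => rw [hFT]
      exact pderiv_frmG hT _ _
    have e7 : (Fin.append (0 : Fin (k + 1) → K) b) = fun s => ∑ j : Fin (m + 1), b j *
        (if s = Fin.natAdd (k + 1) j then (1 : K) else 0) := by
      funext s
      refine Fin.addCases (fun i => ?_) (fun j => ?_) s
      · rw [Fin.append_left, Pi.zero_apply, Finset.sum_eq_zero]
        intro j _
        rw [if_neg, mul_zero]
        intro h
        have := congrArg Fin.val h
        simp at this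
        omega
      · rw [Fin.append_right, Finset.sum_eq_single j]
        · rw [if_pos rfl, mul_one]
        · intro j' _ h
          rw [if_neg (fun h' => h (Fin.natAdd_injective _ _ h').symm), mul_zero]
        · intro h
          exact absurd (Finset.mem_univ _) h
    rw [Bg_swap23 hT, Bg_swap12 hT, e7, Bg_sum1, Finset.mul_sum]
    refine Finset.sum_congr rfl fun j _ => ?_
    rw [e6, Bg_smul1]
    ring
  have hGd : ∀ i, (G i).natDegree ≤ 2 := by
    intro i
    rw [hG]
    have h1 := natDegree_bg T (un (Polynomial K) k m i) Q Q 0 1 1 (by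
      intro s
      rw [hunC]
      exact (Polynomial.natDegree_C _).le) (by
      intro s
      rw [hQC]
      exact natDegree_ln _ _ s) (by
      intro s
      rw [hQC]
      exact natDegree_ln _ _ s)
    have h3 : ((3 : Polynomial K)).natDegree = 0 := Polynomial.natDegree_C (3 : K)
    refine Polynomial.natDegree_mul_le.trans ?_
    rw [h3]
    omega
  have hHd : H.natDegree ≤ 3 := by
    have h1 := natDegree_bg T Q Q Q 1 1 1 (by
      intro s
      rw [hQC]
      exact natDegree_ln _ _ s) (by
      intro s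
      rw [hQC]
      exact natDegree_ln _ _ s) (by
      intro s
      rw [hQC]
      exact natDegree_ln _ _ s)
    exact h1
  rw [hexp] at h
  obtain ⟨w, hw1, hw⟩ := descent hSani G hGd H hHd c l hl ((mul_eq_zero.1 h).resolve_left hl)
  refine ⟨fun i => (w i).coeff 0, fun i => (w i).coeff 1, ?_⟩
  rw [ln_append]
  have hwe : ln (fun i => (w i).coeff 0) (fun i => (w i).coeff 1) = w := by
    funext i
    unfold ln
    conv_rhs => rw [Polynomial.eq_X_add_C_of_natDegree_le_one (hw1 i)]
    ring
  rw [hwe]
  have h1 := hexp w 1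
  rw [hw, mul_zero] at h1
  have h4 : (fun j => (1 : Polynomial K) * ln a b j) = ln a b := by
    funext j
    rw [one_mul]
  rw [h4] at h1
  exact h1

end

end Pool.Agent.U247.CP
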