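import Mathlib
import Pool.Agent.U247.CP.Fwd
import Pool.Agent.R845.E3.TrdAux

/-!
# Lines over the generic line and rational sections (adapted coordinates)
-/

set_option autoImplicit false

namespace Pool.Agent.U247.CP

open MvPolynomial Pool.Agent.TH314.PD IntermediateField Module Pool.Agent.R845.E3
open Pool.Agent.Y201.C3 Pool.Agent.N150.CF

noncomputable section

variable {k m : ℕ}

/-- a rational section gives a point over the generic point of a line -/
theorem sec_line {F : MvPolynomial (Fin (k + 1 + (m + 1))) ℂ} (hF : F.IsHomogeneous 3)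
    (hsm : Sm F) (hW : VanW F) (hiso : Iso F) {K : Type} [Field K] [Algebra ℂ K]
    (a b : Fin (m + 1) → K) (hy : AlgebraicIndependent ℂ (ln a b)) :
    ∃ (c : Fin (k + 1) → Polynomial K) (l : Polynomial K), l ≠ 0 ∧
      aeval (Fin.append c (fun j => l * ln a b j)) F = 0 := by
  classical
  obtain ⟨c', l', hl', hx⟩ := iso_sec hF hsm hW hiso
  let KX := FractionRing (Polynomial K)
  let al : Polynomial K →ₐ[ℂ] KX := IsScalarTower.toAlgHom ℂ (Polynomial K) KX
  have hal : Function.Injective al := IsFractionRing.injective (Polynomial K) KX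
  let y : Fin (m + 1) → KX := fun j => al (ln a b j)
  have hyX : AlgebraicIndependent ℂ y := hy.map' (f := al) hal
  have hy0 : y 0 ≠ 0 := hyX.ne_zero 0
  let η : Fin m → KX := fun j => y j.succ / y 0
  have hη : AlgebraicIndependent ℂ η :=
    gen_ratio y (fun e H _ h0 => hyX.eq_zero_of_aeval_eq_zero H h0) 0 Fin.succ
      (Fin.succ_injective _) (fun j => Fin.succ_ne_zero j)
  let ψ : MvPolynomial (Fin m) ℂ →ₐ[ℂ] KX := aeval η
  have hψ : Function.Injective ψ := hη
  have hψy : ∀ j, ψ (yv ℂ m j) * y 0 = y j := by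
    intro j
    unfold yv
    refine Fin.cases ?_ (fun j => ?_) j
    · rw [Fin.cons_zero, map_one, one_mul]
    · rw [Fin.cons_succ]
      change aeval η (X j) * y 0 = _
      rw [aeval_X]
      exact div_mul_cancel₀ _ hy0
  let f : Option (Fin (k + 1)) → KX := fun o => o.elim (ψ l' / y 0) (fun i => ψ (c' i))
  obtain ⟨D, hD⟩ := IsLocalization.exist_integer_multiples_of_finite
    (nonZeroDivisors (Polynomial K)) f
  choose g hg using hD
  have hg' : ∀ o, al (g o) = al D * f o := by
    intro o
    change algebraMap (Polynomial K) KX (g o) = _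
    rw [hg o, Algebra.smul_def]
    rfl
  have hD0 : al (D : Polynomial K) ≠ 0 := fun h =>
    nonZeroDivisors.ne_zero D.2 (hal (h.trans (map_zero al).symm))
  have hψl : ψ l' ≠ 0 := fun h => hl' (hψ (h.trans (map_zero ψ).symm))
  refine ⟨fun i => g (some i), g none, fun h => ?_, hal ?_⟩
  · have h1 := hg' none
    rw [h, map_zero] at h1
    exact (mul_ne_zero hD0 (div_ne_zero hψl hy0)) h1.symm
  · rw [map_zero, comp_aeval_apply]
    have h1 : (fun s => al (Fin.append (fun i => g (some i)) (fun j => g none * ln a b j) s)) =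
        fun s => al (D : Polynomial K) * ψ (Rat.xa c' l' s) := by
      funext s
      refine Fin.addCases (fun i => ?_) (fun j => ?_) s
      · rw [Fin.append_left, hg']
        have h2 : Rat.xa c' l' (Fin.castAdd (m + 1) i) = c' i := Fin.append_left _ _ _
        rw [h2]
        rfl
      · rw [Fin.append_right, map_mul, hg']
        have h2 : Rat.xa c' l' (Fin.natAdd (k + 1) j) = l' * yv ℂ m j := Fin.append_right _ _ _
        rw [h2, map_mul]
        change al (D : Polynomial K) * (ψ l' / y 0) * y j = _
        rw [← hψy j, show al (D : Polynomial K) * (ψ l' / y 0) * (ψ (yv ℂ m j) * y 0) =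
          al (D : Polynomial K) * (ψ l' * ψ (yv ℂ m j)) * (y 0 / y 0) by ring, div_self hy0,
          mul_one]
    rw [h1, aeval_smul_form hF]
    have h3 := congrArg ψ hx
    rw [map_zero, comp_aeval_apply] at h3
    rw [h3, mul_zero]

/-- **From a rational section to lines.** -/
theorem fwd {F : MvPolynomial (Fin (k + 1 + (m + 1))) ℂ} (hF : F.IsHomogeneous 3)
    (hsm : Sm F) (hW : VanW F) (hiso : Iso F) {K : Type} [Field K] [Algebra ℂ K]
    (a b : Fin (m + 1) → K) {ι : Type} (c : ι → K)
    (hind : AlgebraicIndependent ℂ (Sum.elim b c))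
    (htop : adjoin ℂ (Set.range b ∪ Set.range c) = ⊤)
    (hy : AlgebraicIndependent ℂ (ln a b)) :
    ∃ u0 u1 : Fin (k + 1) → K, aeval (ln (Fin.append u0 a) (Fin.append u1 b)) F = 0 := by
  obtain ⟨c', l, hl, h⟩ := sec_line hF hsm hW hiso a b hy
  exact line_of_sec hF hW a b (ani_gen hF hsm hW b c hind htop) c' l hl h

/-- a point over the generic point of the base, over an extension of odd degree of a purely
transcendental extension -/
theorem iso_of_point {F : MvPolynomial (Fin (k + 1 + (m + 1))) ℂ} (hF : F.IsHomogeneous 3)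
    (hW : VanW F) {E : Type} [Field E] [Algebra ℂ E] {ι : Type} [Finite ι] (u : ι → E)
    (y : Fin (m + 1) → E) (hind : AlgebraicIndependent ℂ (Sum.elim y u))
    (hodd : Odd (finrank (adjoin ℂ (Set.range y ∪ Set.range u)) E)) (c : Fin (k + 1) → E)
    (hx : aeval (Fin.append c y) F = 0) : Iso F := by
  classical
  have := Fintype.ofFinite ι
  have hy0 : y 0 ≠ 0 := hind.ne_zero (Sum.inl 0)
  let v : Fin m → E := fun j => y j.succ / y 0
  let w : Option ι → E := fun o => o.elim (y 0) u
  have hind2 : AlgebraicIndependent ℂ (Sum.elim v w) := by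
    apply Trd.indep_of_le
    have h1 := Trd.rk_range hind
    have h2 : ENat.card (Fin m ⊕ Option ι) = ENat.card (Fin (m + 1) ⊕ ι) := by
      rw [ENat.card_eq_coe_fintype_card, ENat.card_eq_coe_fintype_card]
      congr 1
      simp only [Fintype.card_sum, Fintype.card_fin, Fintype.card_option]
      ring
    rw [h2, ← h1]
    apply Trd.rk_le_of_subset_adjoin
    have hw0 : y 0 ∈ adjoin ℂ (Set.range (Sum.elim v w)) :=
      subset_adjoin _ _ ⟨Sum.inr none, rfl⟩
    rintro _ ⟨j | i, rfl⟩
    · rw [Sum.elim_inl]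
      refine Fin.cases hw0 (fun j => ?_) j
      have h3 : y j.succ = v j * y 0 := (div_mul_cancel₀ _ hy0).symm
      rw [h3]
      exact mul_mem (subset_adjoin _ _ ⟨Sum.inl j, rfl⟩) hw0
    · exact subset_adjoin _ _ ⟨Sum.inr (some i), rfl⟩
  let K : IntermediateField ℂ E := adjoin ℂ (Set.range w)
  have hv : AlgebraicIndependent K v :=
    algebraicIndependent_adjoin_iff.2 (AlgebraicIndependent.sumElim_iff.1 hind2).2
  have hfr : finrank (adjoin K (Set.range v)) E =
      finrank (adjoin ℂ (Set.range y ∪ Set.range u)) E := by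
    refine (Pool.Agent.Y201.LI.finrank_same (fun z => ?_)).2
    have hr1 : z ∈ Set.range (algebraMap (adjoin K (Set.range v)) E) ↔
        z ∈ adjoin K (Set.range v) := by
      constructor
      · rintro ⟨z, rfl⟩
        exact z.2
      · intro h
        exact ⟨⟨z, h⟩, rfl⟩
    have hr2 : z ∈ Set.range (algebraMap (adjoin ℂ (Set.range y ∪ Set.range u)) E) ↔
        z ∈ adjoin ℂ (Set.range y ∪ Set.range u) := by
      constructor
      · rintro ⟨z, rfl⟩
        exact z.2
      · intro h
        exact ⟨⟨z, h⟩, rfl⟩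
    rw [hr1, hr2]
    have hw1 : ∀ o, w o ∈ adjoin ℂ (Set.range y ∪ Set.range u) := by
      intro o
      cases o with
      | none => exact subset_adjoin ℂ _ (Or.inl ⟨0, rfl⟩)
      | some i => exact subset_adjoin ℂ _ (Or.inr ⟨i, rfl⟩)
    constructor
    · intro hz
      have h1 : adjoin K (Set.range v) ≤ IntermediateField.extendScalars (F := K)
          (E := adjoin ℂ (Set.range y ∪ Set.range u)) (by
            refine adjoin_le_iff.2 ?_
            rintro _ ⟨o, rfl⟩
            exact hw1 o) := by
        rw [adjoin_le_iff]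
        rintro _ ⟨j, rfl⟩
        rw [SetLike.mem_coe, mem_extendScalars]
        exact div_mem (subset_adjoin ℂ _ (Or.inl ⟨_, rfl⟩)) (subset_adjoin ℂ _ (Or.inl ⟨_, rfl⟩))
      have h2 := h1 hz
      rwa [mem_extendScalars] at h2
    · intro hz
      have hK : ∀ o, w o ∈ adjoin K (Set.range v) := by
        intro o
        have h1 : w o ∈ K := subset_adjoin ℂ _ ⟨o, rfl⟩
        exact (adjoin K (Set.range v)).algebraMap_mem (⟨w o, h1⟩ : K)
      have h1 : adjoin ℂ (Set.range y ∪ Set.range u) ≤
          (adjoin K (Set.range v)).restrictScalars ℂ := by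
        rw [adjoin_le_iff]
        rintro _ (⟨j, rfl⟩ | ⟨i, rfl⟩)
        · rw [SetLike.mem_coe, mem_restrictScalars]
          refine Fin.cases (hK none) (fun j => ?_) j
          have h3 : y j.succ = v j * y 0 := (div_mul_cancel₀ _ hy0).symm
          rw [h3]
          exact mul_mem (subset_adjoin _ _ ⟨j, rfl⟩) (hK none)
        · rw [SetLike.mem_coe, mem_restrictScalars]
          exact hK (some i)
      exact h1 hz
  refine desc k m F K (spr k m K E v hv (hfr ▸ hodd) (map (algebraMap ℂ K) F)
    (hF.map _) ?_ (fun i => c i / y 0) ?_)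
  · have h1 := vanW_aeval hW (X : Fin (k + 1) → MvPolynomial (Fin (k + 1)) K)
    unfold VanW
    rw [aeval_map_algebraMap]
    exact h1
  · rw [aeval_map_algebraMap]
    have h1 : (Fin.append (fun i => c i / y 0) (Fin.cons 1 v)) =
        fun i => (y 0)⁻¹ * Fin.append c y i := by
      funext i
      refine Fin.addCases (fun j => ?_) (fun j => ?_) i
      · rw [Fin.append_left, Fin.append_left, div_eq_inv_mul]
      · rw [Fin.append_right, Fin.append_right]
        refine Fin.cases ?_ (fun l => ?_) j
        · rw [Fin.cons_zero, inv_mul_cancel₀ hy0]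
        · rw [Fin.cons_succ]
          exact div_eq_inv_mul _ _
    rw [h1, aeval_smul_form hF, hx, mul_zero]

/-- the family of lines -/
theorem iso_of_param {F : MvPolynomial (Fin (k + 1 + (m + 1))) ℂ} (hF : F.IsHomogeneous 3)
    (hW : VanW F) {E : Type} [Field E] [Algebra ℂ E] {ι : Type} [Finite ι] (x : ι → E)
    (hx : AlgebraicIndependent ℂ x) (hodd : Odd (finrank (adjoin ℂ (Set.range x)) E))
    (a b : Fin (m + 1) → E) {ι' : Type} [Finite ι'] (z : ι' → E)
    (hcard : Nat.card ι = m + 1 + Nat.card ι')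
    (ha : ∀ j, a j ∈ adjoin ℂ (Set.range x)) (hb : ∀ j, b j ∈ adjoin ℂ (Set.range x))
    (hz : ∀ i, z i ∈ adjoin ℂ (Set.range x))
    (hgen : ∀ (Ω : Type) [Field Ω] [Algebra ℂ Ω] (f : E →ₐ[ℂ] Ω) (t : Ω), t ≠ 0 →
      ∀ i, f (x i) ∈ adjoin ℂ (Set.range (fun j => f (a j) + t * f (b j)) ∪
        (Set.range (fun i => f (z i)) ∪ {t})))
    (c c' : Fin (k + 1) → E) (hline : aeval (ln (Fin.append c a) (Fin.append c' b)) F = 0) :
    Iso F := by
  classical
  have := Fintype.ofFinite ι
  have := Fintype.ofFinite ι'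
  let P := Polynomial E
  let Ω := FractionRing P
  let ψ : P →ₐ[ℂ] Ω := IsScalarTower.toAlgHom ℂ P Ω
  have hψ : Function.Injective ψ := IsFractionRing.injective P Ω
  let t : Ω := ψ Polynomial.X
  have ht : t ≠ 0 := fun h => Polynomial.X_ne_zero (hψ (h.trans (map_zero ψ).symm))
  let f : E →ₐ[ℂ] Ω := IsScalarTower.toAlgHom ℂ E Ω
  have hψC : ∀ e : E, ψ (Polynomial.C e) = f e := fun e => rfl
  let y : Fin (m + 1) → Ω := fun j => f (a j) + t * f (b j)
  have hyl : ∀ j, ψ (ln a b j) = y j := by
    intro j
    unfold ln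
    rw [map_add, map_mul, hψC, hψC]
  let u : ι' ⊕ Unit → Ω := Sum.elim (fun i => f (z i)) (fun _ => t)
  have hru : Set.range u = Set.range (fun i => f (z i)) ∪ {t} := by
    change Set.range (Sum.elim _ _) = _
    rw [Set.Sum.elim_range, Set.range_const]
  let τ : Unit → Ω := fun _ => t
  have hτ : AlgebraicIndependent E τ := by
    rw [algebraicIndependent_unique_type_iff]
    intro h
    have h3 : IsAlgebraic E (Polynomial.X : Polynomial E) :=
      (isAlgebraic_algHom_iff (IsScalarTower.toAlgHom E P Ω) hψ).1 h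
    exact Polynomial.transcendental_X E h3
  have hbase : AlgebraicIndependent ℂ (Sum.elim τ (algebraMap E Ω ∘ x)) := hx.sumElim_comp hτ
  have hxm : ∀ i, f (x i) ∈ adjoin ℂ (Set.range y ∪ Set.range u) := by
    intro i
    have h1 := hgen Ω f t ht i
    rw [hru]
    exact h1
  have htm : t ∈ adjoin ℂ (Set.range y ∪ Set.range u) :=
    subset_adjoin _ _ (Or.inr ⟨Sum.inr (), rfl⟩)
  have hind : AlgebraicIndependent ℂ (Sum.elim y u) := by
    apply Trd.indep_of_le
    have h1 := Trd.rk_range hbase
    have h2 : ENat.card (Fin (m + 1) ⊕ (ι' ⊕ Unit)) = ENat.card (Unit ⊕ ι) := by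
      rw [ENat.card_eq_coe_fintype_card, ENat.card_eq_coe_fintype_card]
      congr 1
      rw [Nat.card_eq_fintype_card, Nat.card_eq_fintype_card] at hcard
      simp only [Fintype.card_sum, Fintype.card_fin, Fintype.card_unit]
      omega
    rw [h2, ← h1]
    apply Trd.rk_le_of_subset_adjoin
    have hr2 : Set.range (Sum.elim y u) = Set.range y ∪ Set.range u := Set.Sum.elim_range _ _
    rw [hr2]
    rintro _ ⟨_ | i, rfl⟩
    · exact htm
    · exact hxm i
  -- the field
  let R : IntermediateField ℂ E := adjoin ℂ (Set.range x)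
  have hfin : FiniteDimensional R E := Module.finite_of_finrank_pos hodd.pos
  have htop : adjoin E (Set.range τ) = ⊤ := by
    rw [eq_top_iff]
    rintro z -
    have htm : t ∈ adjoin E (Set.range τ) := subset_adjoin _ _ ⟨(), rfl⟩
    have hP : ∀ q : P, ψ q ∈ adjoin E (Set.range τ) := by
      intro q
      induction q using Polynomial.induction_on' with
      | add f g hf hg =>
        rw [map_add]
        exact add_mem hf hg
      | monomial n a =>
        rw [← Polynomial.C_mul_X_pow_eq_monomial, map_mul, map_pow, hψC]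
        exact mul_mem (IntermediateField.algebraMap_mem _ _) (pow_mem htm n)
    obtain ⟨a, b, -, hz⟩ := IsFractionRing.div_surjective (A := P) z
    rw [← hz]
    exact div_mem (hP a) (hP b)
  obtain ⟨-, hE2⟩ := Pool.Agent.Y220.LI.ext R E Ω _ τ hτ htop
  have hRm : ∀ e : E, e ∈ R → f e ∈ adjoin ℂ (Set.range y ∪ Set.range u) := by
    intro e he
    have h1 : R ≤ (adjoin ℂ (Set.range y ∪ Set.range u)).comap f := by
      rw [adjoin_le_iff]
      rintro _ ⟨i, rfl⟩
      exact hxm i
    exact h1 he
  have hfr : finrank (adjoin ℂ (Set.range y ∪ Set.range u)) Ω =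
      finrank (adjoin R (Set.range τ)) Ω := by
    refine (Pool.Agent.Y201.LI.finrank_same (fun z => ?_)).2
    have hr1 : z ∈ Set.range (algebraMap (adjoin R (Set.range τ)) Ω) ↔
        z ∈ adjoin R (Set.range τ) := by
      constructor
      · rintro ⟨z, rfl⟩
        exact z.2
      · intro h
        exact ⟨⟨z, h⟩, rfl⟩
    have hr2 : z ∈ Set.range (algebraMap (adjoin ℂ (Set.range y ∪ Set.range u)) Ω) ↔
        z ∈ adjoin ℂ (Set.range y ∪ Set.range u) := by
      constructor
      · rintro ⟨z, rfl⟩
        exact z.2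
      · intro h
        exact ⟨⟨z, h⟩, rfl⟩
    rw [hr1, hr2]
    have hfR : ∀ e : E, e ∈ R → f e ∈ adjoin R (Set.range τ) := fun e he =>
      (adjoin R (Set.range τ)).algebraMap_mem (⟨e, he⟩ : R)
    have htR : t ∈ adjoin R (Set.range τ) := subset_adjoin _ _ ⟨(), rfl⟩
    clear hr1 hr2
    constructor
    · intro hz'
      have h1 : adjoin ℂ (Set.range y ∪ Set.range u) ≤
          (adjoin R (Set.range τ)).restrictScalars ℂ := by
        rw [adjoin_le_iff]
        rintro _ (⟨j, rfl⟩ | ⟨i | _, rfl⟩)
        · rw [SetLike.mem_coe, mem_restrictScalars]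
          exact add_mem (hfR _ (ha j)) (mul_mem htR (hfR _ (hb j)))
        · rw [SetLike.mem_coe, mem_restrictScalars]
          exact hfR _ (hz i)
        · rw [SetLike.mem_coe, mem_restrictScalars]
          exact htR
      exact h1 hz'
    · intro hz'
      induction hz' using IntermediateField.adjoin_induction with
      | mem z hz =>
        obtain ⟨_, rfl⟩ := hz
        exact htm
      | algebraMap c => exact hRm c c.2
      | add a b _ _ ha hb => exact add_mem ha hb
      | inv a _ ha => exact inv_mem ha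
      | mul a b _ _ ha hb => exact mul_mem ha hb
  refine iso_of_point hF hW u y hind (by rw [hfr, hE2]; exact hodd)
    (fun i => ψ (ln c c' i)) ?_
  have h1 := congrArg ψ hline
  rw [map_zero, comp_aeval_apply] at h1
  rw [← h1]
  congr 2
  funext s
  rw [ln_append]
  refine Fin.addCases (fun i => ?_) (fun j => ?_) s
  · rw [Fin.append_left, Fin.append_left]
  · rw [Fin.append_right, Fin.append_right, hyl]

end

end Pool.Agent.U247.CP
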