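import Mathlib
import Pool.Agent.U247.CP.Back

/-!
# The three kinds of families (adapted coordinates)
-/

set_option autoImplicit false

namespace Pool.Agent.U247.CP

open MvPolynomial Pool.Agent.TH314.PD IntermediateField Module Pool.Agent.R845.E3
open Pool.Agent.Y201.C3 Pool.Agent.N150.CF

noncomputable section

variable {k m : ℕ}

/-- a line in a hypersurface: polynomial identity and points -/
theorem line_iff {N : ℕ} {F : MvPolynomial (Fin N) ℂ} (hF : F.IsHomogeneous 3) {K : Type}
    [Field K] [Algebra ℂ K] (P Q : Fin N → K) :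
    aeval (ln P Q) F = 0 ↔ ∀ s t : K, aeval (fun i => s * P i + t * Q i) F = 0 := by
  have hinf : Infinite K := Infinite.of_injective _ (algebraMap ℂ K).injective
  have hev : ∀ t : K, (aeval (ln P Q) F).eval t = aeval (fun i => P i + t * Q i) F := by
    intro t
    have h1 := comp_aeval_apply (φ := ((Polynomial.aeval t : Polynomial K →ₐ[K] K).restrictScalars
      ℂ)) (ln P Q) F
    have h2 : (aeval (ln P Q) F).eval t = ((Polynomial.aeval t : Polynomial K →ₐ[K] K).restrictScalars
      ℂ) (aeval (ln P Q) F) := (Polynomial.coe_aeval_eq_eval t ▸ rfl)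
    rw [h2, h1]
    congr 2
    funext i
    simp [ln]
    ring
  constructor
  · intro h
    have h1 : ∀ s t : K, s ≠ 0 → aeval (fun i => s * P i + t * Q i) F = 0 := by
      intro s t hs
      have h2 : (fun i => s * P i + t * Q i) = fun i => s * (P i + (s⁻¹ * t) * Q i) := by
        funext i
        rw [mul_add]
        congr 1
        rw [← mul_assoc, ← mul_assoc, mul_inv_cancel₀ hs, one_mul]
      rw [h2, aeval_smul_form hF, ← hev, h, Polynomial.eval_zero, mul_zero]
    intro s t
    by_cases hs : s = 0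
    swap
    · exact h1 s t hs
    subst hs
    -- the polynomial `F(X P + t Q)`
    let p : Polynomial K := aeval (fun i => Polynomial.X * Polynomial.C (P i) +
      Polynomial.C (t * Q i)) F
    have hp : ∀ s : K, p.eval s = aeval (fun i => s * P i + t * Q i) F := by
      intro s
      have h1 := comp_aeval_apply (φ := ((Polynomial.aeval s :
        Polynomial K →ₐ[K] K).restrictScalars ℂ)) (fun i => Polynomial.X * Polynomial.C (P i) +
          Polynomial.C (t * Q i)) F
      have h2 : p.eval s = ((Polynomial.aeval s : Polynomial K →ₐ[K] K).restrictScalars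
        ℂ) p := (Polynomial.coe_aeval_eq_eval s ▸ rfl)
      rw [h2]
      refine h1.trans ?_
      congr 2
      funext i
      simp
      ring
    have hp0 : p = 0 := by
      apply Polynomial.eq_zero_of_infinite_isRoot
      refine Set.Infinite.mono (s := {s : K | s ≠ 0}) (fun s hs => ?_) ?_
      · change p.eval s = 0
        rw [hp]
        exact h1 s t hs
      · exact (Set.finite_singleton (0 : K)).infinite_compl
    rw [← hp, hp0, Polynomial.eval_zero]
  · intro h
    apply Polynomial.funext
    intro t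
    rw [hev, Polynomial.eval_zero, ← h 1 t]
    congr 2
    funext i
    rw [one_mul]

/-- rational section of degree `d` -/
def SecD (k m : ℕ) (F : MvPolynomial (Fin (k + 1 + (m + 1))) ℂ) (d : ℕ) : Prop :=
  ∃ (E : Type) (_ : Field E) (_ : Algebra ℂ E) (y : Fin m → E), AlgebraicIndependent ℂ y ∧
    finrank (adjoin ℂ (Set.range y)) E = d ∧
    ∃ c : Fin (k + 1) → E, aeval (Fin.append c (Fin.cons 1 y)) F = 0

/-- lines over the generic line, degree `d` -/
def LinD (k m : ℕ) (F : MvPolynomial (Fin (k + 1 + (m + 1))) ℂ) (d : ℕ) : Prop :=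
  ∃ (E : Type) (_ : Field E) (_ : Algebra ℂ E) (a b : Fin (m + 1) → E),
    AlgebraicIndependent ℂ (Sum.elim a b) ∧
    finrank (adjoin ℂ (Set.range a ∪ Set.range b)) E = d ∧
    ∃ c c' : Fin (k + 1) → E, ∀ s t : E,
      aeval (fun i => s * Fin.append c a i + t * Fin.append c' b i) F = 0

/-- lines over the generic line through a point `p`, degree `d` -/
def RulD (k m : ℕ) (F : MvPolynomial (Fin (k + 1 + (m + 1))) ℂ) (p : Fin (m + 1) → ℂ) (d : ℕ) :
    Prop :=
  ∃ (E : Type) (_ : Field E) (_ : Algebra ℂ E) (b : Fin (m + 1) → E),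
    AlgebraicIndependent ℂ b ∧ finrank (adjoin ℂ (Set.range b)) E = d ∧
    ∃ c c' : Fin (k + 1) → E, ∀ s t : E,
      aeval (fun i => s * Fin.append c (fun j => algebraMap ℂ E (p j)) i +
        t * Fin.append c' b i) F = 0

theorem iso_of_secD {F : MvPolynomial (Fin (k + 1 + (m + 1))) ℂ} (hF : F.IsHomogeneous 3)
    (hW : VanW F) {d : ℕ} (hd : Odd d) (h : SecD k m F d) : Iso F := by
  obtain ⟨E, _, _, y, hy, hfr, c, hc⟩ := h
  exact spr k m ℂ E y hy (hfr ▸ hd) F hF hW c hc

theorem secD_of_iso {F : MvPolynomial (Fin (k + 1 + (m + 1))) ℂ} (hF : F.IsHomogeneous 3)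
    (hsm : Sm F) (hW : VanW F) (h : Iso F) : SecD k m F 1 := by
  obtain ⟨c', l', hl', hx⟩ := iso_sec hF hsm hW h
  let al : MvPolynomial (Fin m) ℂ →ₐ[ℂ] Rn m :=
    IsScalarTower.toAlgHom ℂ (MvPolynomial (Fin m) ℂ) (Rn m)
  have hal : Function.Injective al := IsFractionRing.injective (MvPolynomial (Fin m) ℂ) _
  have hl : al l' ≠ 0 := fun h => hl' (hal (h.trans (map_zero _).symm))
  refine ⟨Rn m, inferInstance, inferInstance, fun j => al (X j), ?_, ?_,
    fun i => al (c' i) / al l', ?_⟩
  · exact (MvPolynomial.algebraicIndependent_X (Fin m) ℂ).map' (f := al) hal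
  · have htop : adjoin ℂ (Set.range fun j => al (X j)) = ⊤ := by
      rw [eq_top_iff]
      rintro z -
      have hP : ∀ q : MvPolynomial (Fin m) ℂ, al q ∈ adjoin ℂ (Set.range fun j => al (X j)) := by
        intro q
        induction q using MvPolynomial.induction_on with
        | C a => 
          rw [show al (C a) = algebraMap ℂ _ a from al.commutes a]
          exact IntermediateField.algebraMap_mem _ _
        | add p q hp hq =>
          rw [map_add]
          exact add_mem hp hq
        | mul_X p j hp =>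
          rw [map_mul]
          exact mul_mem hp (subset_adjoin _ _ ⟨j, rfl⟩)
      obtain ⟨a, b, -, hz⟩ := IsFractionRing.div_surjective (A := MvPolynomial (Fin m) ℂ) z
      rw [← hz]
      exact div_mem (hP a) (hP b)
    rw [htop]
    exact IntermediateField.finrank_top
  · have h1 := congrArg al hx
    rw [map_zero, comp_aeval_apply] at h1
    have h2 : (Fin.append (fun i => al (c' i) / al l') (Fin.cons 1 fun j => al (X j)) :
        Fin (k + 1 + (m + 1)) → Rn m) = fun s => (al l')⁻¹ * al (Rat.xa c' l' s) := by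
      funext s
      refine Fin.addCases (fun i => ?_) (fun j => ?_) s
      · rw [Fin.append_left]
        have h3 : Rat.xa c' l' (Fin.castAdd (m + 1) i) = c' i := Fin.append_left _ _ _
        rw [h3, div_eq_inv_mul]
      · rw [Fin.append_right]
        have h3 : Rat.xa c' l' (Fin.natAdd (k + 1) j) = l' * yv ℂ m j := Fin.append_right _ _ _
        rw [h3, map_mul, inv_mul_cancel_left₀ hl]
        unfold yv
        refine Fin.cases ?_ (fun j => ?_) j
        · rw [Fin.cons_zero, Fin.cons_zero, map_one]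
        · rw [Fin.cons_succ, Fin.cons_succ]
    rw [h2, aeval_smul_form hF, h1, mul_zero]

theorem iso_of_linD {F : MvPolynomial (Fin (k + 1 + (m + 1))) ℂ} (hF : F.IsHomogeneous 3)
    (hW : VanW F) {d : ℕ} (hd : Odd d) (h : LinD k m F d) : Iso F := by
  obtain ⟨E, _, _, a, b, hab, hfr, c, c', hc⟩ := h
  have hr : Set.range (Sum.elim a b) = Set.range a ∪ Set.range b := Set.Sum.elim_range a b
  have ha : ∀ j, a j ∈ adjoin ℂ (Set.range (Sum.elim a b)) := fun j =>
    subset_adjoin _ _ ⟨Sum.inl j, rfl⟩
  have hb : ∀ j, b j ∈ adjoin ℂ (Set.range (Sum.elim a b)) := fun j =>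
    subset_adjoin _ _ ⟨Sum.inr j, rfl⟩
  refine iso_of_param hF hW (Sum.elim a b) hab (by rw [hr, hfr]; exact hd) a b b ?_ ha hb hb ?_
    c c' ((line_iff hF _ _).2 hc)
  · rw [Nat.card_sum, Nat.card_fin]
  · intro Ω _ _ f t ht i
    have hbm : ∀ j, f (b j) ∈ adjoin ℂ (Set.range (fun j => f (a j) + t * f (b j)) ∪
        (Set.range (fun i => f (b i)) ∪ {t})) := fun j =>
      subset_adjoin _ _ (Or.inr (Or.inl ⟨j, rfl⟩))
    have htm : t ∈ adjoin ℂ (Set.range (fun j => f (a j) + t * f (b j)) ∪
        (Set.range (fun i => f (b i)) ∪ {t})) := subset_adjoin _ _ (Or.inr (Or.inr rfl))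
    obtain j | j := i
    · have h1 : f (a j) = (f (a j) + t * f (b j)) - t * f (b j) := by ring
      rw [Sum.elim_inl, h1]
      exact sub_mem (subset_adjoin _ _ (Or.inl ⟨j, rfl⟩)) (mul_mem htm (hbm j))
    · exact hbm j

theorem iso_of_rulD {F : MvPolynomial (Fin (k + 1 + (m + 1))) ℂ} (hF : F.IsHomogeneous 3)
    (hW : VanW F) {d : ℕ} (hd : Odd d) {p : Fin (m + 1) → ℂ} (h : RulD k m F p d) : Iso F := by
  obtain ⟨E, _, _, b, hb, hfr, c, c', hc⟩ := h
  refine iso_of_param hF hW b hb (hfr ▸ hd) (fun j => algebraMap ℂ E (p j)) b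
    (Fin.elim0 : Fin 0 → E) ?_ (fun j => IntermediateField.algebraMap_mem _ _)
    (fun j => subset_adjoin _ _ ⟨j, rfl⟩) (fun i => i.elim0) ?_
    c c' ((line_iff hF _ _).2 hc)
  · rw [Nat.card_fin, Nat.card_fin]
  · intro Ω _ _ f t ht i
    have htm : t ∈ adjoin ℂ (Set.range (fun j => f (algebraMap ℂ E (p j)) + t * f (b j)) ∪
        (Set.range (fun i => f ((Fin.elim0 : Fin 0 → E) i)) ∪ {t})) :=
      subset_adjoin _ _ (Or.inr (Or.inr rfl))
    have h1 : f (b i) = ((f (algebraMap ℂ E (p i)) + t * f (b i)) -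
        algebraMap ℂ Ω (p i)) / t := by
      rw [AlgHom.commutes]
      field_simp
      ring
    rw [h1]
    exact div_mem (sub_mem (subset_adjoin _ _ (Or.inl ⟨i, rfl⟩))
      (IntermediateField.algebraMap_mem _ _)) htm

/-- the field of rational functions -/
theorem adjoin_X (σ : Type) :
    adjoin ℂ (Set.range fun j : σ =>
      (IsScalarTower.toAlgHom ℂ (MvPolynomial σ ℂ) (FractionRing (MvPolynomial σ ℂ))) (X j)) = ⊤ := by
  set al : MvPolynomial σ ℂ →ₐ[ℂ] FractionRing (MvPolynomial σ ℂ) :=
    IsScalarTower.toAlgHom ℂ (MvPolynomial σ ℂ) (FractionRing (MvPolynomial σ ℂ)) with hal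
  rw [eq_top_iff]
  rintro z -
  have hP : ∀ q : MvPolynomial σ ℂ, al q ∈ adjoin ℂ (Set.range fun j => al (X j)) := by
    intro q
    induction q using MvPolynomial.induction_on with
    | C a => 
      rw [show al (C a) = algebraMap ℂ _ a from al.commutes a]
      exact IntermediateField.algebraMap_mem _ _
    | add p q hp hq =>
      rw [map_add]
      exact add_mem hp hq
    | mul_X p j hp =>
      rw [map_mul]
      exact mul_mem hp (subset_adjoin _ _ ⟨j, rfl⟩)
  obtain ⟨a, b, -, hz⟩ := IsFractionRing.div_surjective (A := MvPolynomial σ ℂ) z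
  rw [← hz]
  exact div_mem (hP a) (hP b)

theorem linD_of_iso {F : MvPolynomial (Fin (k + 1 + (m + 1))) ℂ} (hF : F.IsHomogeneous 3)
    (hsm : Sm F) (hW : VanW F) (h : Iso F) : LinD k m F 1 := by
  let σ := Fin (m + 1) ⊕ Fin (m + 1)
  let K := FractionRing (MvPolynomial σ ℂ)
  let al : MvPolynomial σ ℂ →ₐ[ℂ] K := IsScalarTower.toAlgHom ℂ (MvPolynomial σ ℂ) K
  have hal : Function.Injective al := IsFractionRing.injective (MvPolynomial σ ℂ) K
  let a : Fin (m + 1) → K := fun j => al (X (Sum.inl j))
  let b : Fin (m + 1) → K := fun j => al (X (Sum.inr j))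
  have hX : AlgebraicIndependent ℂ (fun s : σ => al (X s)) :=
    (MvPolynomial.algebraicIndependent_X σ ℂ).map' (f := al) hal
  have hab : AlgebraicIndependent ℂ (Sum.elim a b) := by
    have h1 : Sum.elim a b = fun s : σ => al (X s) := by
      funext s
      cases s <;> rfl
    rw [h1]
    exact hX
  have hba : AlgebraicIndependent ℂ (Sum.elim b a) := by
    have h1 : Sum.elim b a = (fun s : σ => al (X s)) ∘ Sum.swap := by
      funext s
      cases s <;> rfl
    rw [h1]
    exact hX.comp _ Sum.swap_leftInverse.injective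
  have htop : adjoin ℂ (Set.range a ∪ Set.range b) = ⊤ := by
    rw [← adjoin_X σ, ← Set.Sum.elim_range]
    congr 2
    funext s
    cases s <;> rfl
  have hy : AlgebraicIndependent ℂ (ln a b) := by
    apply AlgebraicIndependent.of_comp
      ((Polynomial.aeval (0 : K) : Polynomial K →ₐ[K] K).restrictScalars ℂ)
    have h1 : (((Polynomial.aeval (0 : K) : Polynomial K →ₐ[K] K).restrictScalars ℂ) ∘ ln a b) =
        a := by
      funext j
      simp [ln]
    rw [h1]
    exact hX.comp _ Sum.inl_injective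
  obtain ⟨u0, u1, hu⟩ := fwd hF hsm hW h a b a hba (by rw [Set.union_comm]; exact htop) hy
  refine ⟨K, inferInstance, inferInstance, a, b, hab, ?_, u0, u1, (line_iff hF _ _).1 hu⟩
  rw [htop]
  exact IntermediateField.finrank_top

theorem rulD_of_iso {F : MvPolynomial (Fin (k + 1 + (m + 1))) ℂ} (hF : F.IsHomogeneous 3)
    (hsm : Sm F) (hW : VanW F) (h : Iso F) (p : Fin (m + 1) → ℂ) : RulD k m F p 1 := by
  let σ := Fin (m + 1)
  let K := FractionRing (MvPolynomial σ ℂ)
  let al : MvPolynomial σ ℂ →ₐ[ℂ] K := IsScalarTower.toAlgHom ℂ (MvPolynomial σ ℂ) K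
  have hal : Function.Injective al := IsFractionRing.injective (MvPolynomial σ ℂ) K
  let b : Fin (m + 1) → K := fun j => al (X j)
  have hb : AlgebraicIndependent ℂ b :=
    (MvPolynomial.algebraicIndependent_X σ ℂ).map' (f := al) hal
  have htop : adjoin ℂ (Set.range b) = ⊤ := adjoin_X σ
  let a : Fin (m + 1) → K := fun j => algebraMap ℂ K (p j)
  have hab : AlgebraicIndependent ℂ (fun j => a j + b j) := by
    apply Trd.indep_of_le
    rw [← Trd.rk_range hb]
    apply Trd.rk_le_of_subset_adjoin
    rintro _ ⟨j, rfl⟩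
    have h1 : b j = (a j + b j) - algebraMap ℂ K (p j) := by
      change b j = (algebraMap ℂ K (p j) + b j) - algebraMap ℂ K (p j)
      ring
    rw [h1]
    exact sub_mem (subset_adjoin _ _ ⟨j, rfl⟩) (IntermediateField.algebraMap_mem _ _)
  have hy : AlgebraicIndependent ℂ (ln a b) := by
    apply AlgebraicIndependent.of_comp
      ((Polynomial.aeval (1 : K) : Polynomial K →ₐ[K] K).restrictScalars ℂ)
    have h1 : (((Polynomial.aeval (1 : K) : Polynomial K →ₐ[K] K).restrictScalars ℂ) ∘ ln a b) =
        fun j => a j + b j := by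
      funext j
      simp [ln]
    rw [h1]
    exact hab
  obtain ⟨u0, u1, hu⟩ := fwd hF hsm hW h a b (Fin.elim0 : Fin 0 → K) (by
      have h1 : Sum.elim b (Fin.elim0 : Fin 0 → K) = b ∘ (Equiv.sumEmpty (Fin (m + 1)) (Fin 0)) := by
        funext s
        obtain s | s := s
        · rfl
        · exact s.elim0
      rw [h1]
      exact hb.comp _ (Equiv.injective _)) (by
      rw [Set.range_eq_empty (Fin.elim0 : Fin 0 → K), Set.union_empty]
      exact htop) hy
  refine ⟨K, inferInstance, inferInstance, b, hb, ?_, u0, u1, (line_iff hF _ _).1 hu⟩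
  rw [htop]
  exact IntermediateField.finrank_top

end

end Pool.Agent.U247.CP
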