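import Mathlib
import Pool.Agent.U247.CP.Cases
import Pool.Agent.U351.CH.Main
import Pool.Agent.R845.E3.Sections

/-!
# Original coordinates
-/

set_option autoImplicit false

namespace Pool.Agent.U247.CP

open MvPolynomial Pool.Agent.TH314.PD IntermediateField Module Pool.Agent.R845.E3
open Pool.Agent.Y201.C3 Pool.Agent.N150.CF

noncomputable section

variable {k m N : ℕ}

/-- the point `∑ c_a v_a + ∑ y_j e_j` -/
def pt {E : Type} [Field E] [Algebra ℂ E] (v : Fin (k + 1) → Fin N → ℂ)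
    (e : Fin (m + 1) → Fin N → ℂ) (c : Fin (k + 1) → E) (y : Fin (m + 1) → E) : Fin N → E :=
  fun i => ∑ a, c a * algebraMap ℂ E (v a i) + ∑ j, y j * algebraMap ℂ E (e j i)

/-- the span of `x` and `x'` is in the hypersurface `F = 0` -/
def LineIn {E : Type} [Field E] [Algebra ℂ E] (F : MvPolynomial (Fin N) ℂ) (x x' : Fin N → E) :
    Prop := ∀ s t : E, aeval (fun i => s * x i + t * x' i) F = 0

/-- section of degree `d` -/
def OSec (F : MvPolynomial (Fin N) ℂ) (v : Fin (k + 1) → Fin N → ℂ)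
    (e : Fin (m + 1) → Fin N → ℂ) (d : ℕ) : Prop :=
  ∃ (E : Type) (_ : Field E) (_ : Algebra ℂ E) (y : Fin m → E), AlgebraicIndependent ℂ y ∧
    finrank (adjoin ℂ (Set.range y)) E = d ∧
    ∃ c : Fin (k + 1) → E, aeval (pt v e c (Fin.cons 1 y)) F = 0

/-- lines over the generic line -/
def OLin (F : MvPolynomial (Fin N) ℂ) (v : Fin (k + 1) → Fin N → ℂ)
    (e : Fin (m + 1) → Fin N → ℂ) (d : ℕ) : Prop :=
  ∃ (E : Type) (_ : Field E) (_ : Algebra ℂ E) (a b : Fin (m + 1) → E),
    AlgebraicIndependent ℂ (Sum.elim a b) ∧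
    finrank (adjoin ℂ (Set.range a ∪ Set.range b)) E = d ∧
    ∃ c c' : Fin (k + 1) → E, LineIn F (pt v e c a) (pt v e c' b)

/-- lines over the generic line through the image of `p` -/
def ORul (F : MvPolynomial (Fin N) ℂ) (v : Fin (k + 1) → Fin N → ℂ)
    (e : Fin (m + 1) → Fin N → ℂ) (p : Fin N → ℂ) (d : ℕ) : Prop :=
  ∃ (E : Type) (_ : Field E) (_ : Algebra ℂ E) (b : Fin (m + 1) → E),
    AlgebraicIndependent ℂ b ∧ finrank (adjoin ℂ (Set.range b)) E = d ∧
    ∃ c c' : Fin (k + 1) → E,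
      LineIn F (fun i => algebraMap ℂ E (p i) + ∑ a, c a * algebraMap ℂ E (v a i)) (pt v e c' b)

variable {F : MvPolynomial (Fin (k + 1 + (m + 1))) ℂ}
    {v : Fin (k + 1) → Fin (k + 1 + (m + 1)) → ℂ} {e : Fin (m + 1) → Fin (k + 1 + (m + 1)) → ℂ}
    {B C : Matrix (Fin (k + 1 + (m + 1))) (Fin (k + 1 + (m + 1))) ℂ}

theorem osec_iff
    (hlc : ∀ {R : Type} [CommRing R] [Algebra ℂ R] (u : Fin (k + 1) → R) (w : Fin (m + 1) → R)
        (i : Fin (k + 1 + (m + 1))), lc (fun s => B s) (Fin.append u w) i =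
        ∑ a, u a * algebraMap ℂ R (v a i) + ∑ a, w a * algebraMap ℂ R (e a i)) (d : ℕ) :
    OSec F v e d ↔ SecD k m (sub B F) d := by
  unfold OSec SecD
  refine exists_congr fun E => exists_congr fun _ => exists_congr fun _ => exists_congr fun y =>
    and_congr_right fun _ => and_congr_right fun _ => exists_congr fun c => ?_
  rw [aeval_sub]
  have h1 : lc (fun s => B s) (Fin.append c (Fin.cons 1 y)) = pt v e c (Fin.cons 1 y) := by
    funext i
    rw [hlc]
    rfl
  rw [h1]

theorem lc_lin {E : Type} [Field E] [Algebra ℂ E] (B : Matrix (Fin N) (Fin N) ℂ)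
    (x x' : Fin N → E) (s t : E) : lc (fun s => B s) (fun i => s * x i + t * x' i) =
      fun i => s * lc (fun s => B s) x i + t * lc (fun s => B s) x' i := by
  funext i
  unfold lc
  rw [Finset.mul_sum, Finset.mul_sum, ← Finset.sum_add_distrib]
  exact Finset.sum_congr rfl fun u _ => by ring

theorem olin_iff
    (hlc : ∀ {R : Type} [CommRing R] [Algebra ℂ R] (u : Fin (k + 1) → R) (w : Fin (m + 1) → R)
        (i : Fin (k + 1 + (m + 1))), lc (fun s => B s) (Fin.append u w) i =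
        ∑ a, u a * algebraMap ℂ R (v a i) + ∑ a, w a * algebraMap ℂ R (e a i)) (d : ℕ) :
    OLin F v e d ↔ LinD k m (sub B F) d := by
  unfold OLin LinD LineIn
  refine exists_congr fun E => exists_congr fun _ => exists_congr fun _ => exists_congr fun a =>
    exists_congr fun b => and_congr_right fun _ => and_congr_right fun _ =>
    exists_congr fun c => exists_congr fun c' => forall_congr' fun s => forall_congr' fun t => ?_
  rw [aeval_sub, lc_lin]
  have h1 : lc (fun s => B s) (Fin.append c a) = pt v e c a := by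
    funext i
    rw [hlc]
    rfl
  have h2 : lc (fun s => B s) (Fin.append c' b) = pt v e c' b := by
    funext i
    rw [hlc]
    rfl
  rw [h1, h2]

theorem orul_iff (hCB : C * B = 1)
    (hlc : ∀ {R : Type} [CommRing R] [Algebra ℂ R] (u : Fin (k + 1) → R) (w : Fin (m + 1) → R)
        (i : Fin (k + 1 + (m + 1))), lc (fun s => B s) (Fin.append u w) i =
        ∑ a, u a * algebraMap ℂ R (v a i) + ∑ a, w a * algebraMap ℂ R (e a i)) (d : ℕ)
    (p : Fin (k + 1 + (m + 1)) → ℂ) :
    ORul F v e p d ↔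
      RulD k m (sub B F) (fun j => lc (fun s => C s) p (Fin.natAdd (k + 1) j)) d := by
  unfold ORul RulD LineIn
  refine exists_congr fun E => exists_congr fun _ => exists_congr fun _ =>
    exists_congr fun b => and_congr_right fun _ => and_congr_right fun _ => ?_
  set p0 : Fin (k + 1) → ℂ := fun a => lc (fun s => C s) p (Fin.castAdd (m + 1) a) with hp0
  set p1 : Fin (m + 1) → ℂ := fun j => lc (fun s => C s) p (Fin.natAdd (k + 1) j) with hp1
  have hp : ∀ i, algebraMap ℂ E (p i) = ∑ a, algebraMap ℂ E (p0 a) * algebraMap ℂ E (v a i) +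
      ∑ j, algebraMap ℂ E (p1 j) * algebraMap ℂ E (e j i) := by
    intro i
    have h1 : p i = ∑ a, p0 a * v a i + ∑ j, p1 j * e j i := by
      have h2 : Fin.append p0 p1 = lc (fun s => C s) p := by
        funext s
        refine Fin.addCases (fun a => ?_) (fun j => ?_) s
        · rw [Fin.append_left]
        · rw [Fin.append_right]
      have h3 := hlc (R := ℂ) p0 p1 i
      rw [h2, lc_lc, hCB, lc_one] at h3
      exact h3
    rw [h1, map_add, map_sum, map_sum]
    simp only [map_mul]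
  have key : ∀ (c c' : Fin (k + 1) → E) (s t : E),
      aeval (fun i => s * Fin.append (fun a => algebraMap ℂ E (p0 a) + c a)
        (fun j => algebraMap ℂ E (p1 j)) i + t * Fin.append c' b i) (sub B F) =
      aeval (fun i => s * (algebraMap ℂ E (p i) + ∑ a, c a * algebraMap ℂ E (v a i)) +
        t * pt v e c' b i) F := by
    intro c c' s t
    rw [aeval_sub, lc_lin]
    congr 2
    funext i
    rw [hlc, hlc, hp i]
    have h2 : pt v e c' b i = ∑ a, c' a * algebraMap ℂ E (v a i) +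
      ∑ a, b a * algebraMap ℂ E (e a i) := rfl
    rw [h2]
    simp only [add_mul, Finset.sum_add_distrib]
    ring
  constructor
  · rintro ⟨c, c', h⟩
    exact ⟨fun a => algebraMap ℂ E (p0 a) + c a, c', fun s t => by rw [key]; exact h s t⟩
  · rintro ⟨c, c', h⟩
    refine ⟨fun a => c a - algebraMap ℂ E (p0 a), c', fun s t => ?_⟩
    rw [← key, ← h s t]
    congr 2
    funext i
    simp only [add_sub_cancel]

/-- the equivalences -/
theorem tfae {N : ℕ} (hN : N = k + 1 + (m + 1)) {F : MvPolynomial (Fin N) ℂ}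
    (hF : F.IsHomogeneous 3) (hsm : Sm F) {v : Fin (k + 1) → Fin N → ℂ}
    {e : Fin (m + 1) → Fin N → ℂ}
    (hvF : ∀ b : Fin (k + 1) → ℂ, eval (fun i => ∑ l, b l * v l i) F = 0)
    (hli : LinearIndependent ℂ (Fin.append v e)) :
    [OSec F v e 1, ∃ d, Odd d ∧ OSec F v e d, OLin F v e 1, ∃ d, Odd d ∧ OLin F v e d,
      ∀ p, ORul F v e p 1, ∃ p d, Odd d ∧ ORul F v e p d].TFAE := by
  subst hN
  obtain ⟨B, C, hBC, hCB, hBl, hBr, hlc, hW⟩ := Pool.Agent.U351.CH.adapt hvF hli
  have hF2 := sub_hom B hF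
  have hs2 := sm_sub hBC hsm
  have i1 : Iso (sub B F) → OSec F v e 1 := fun h => (osec_iff hlc 1).2 (secD_of_iso hF2 hs2 hW h)
  have i3 : Iso (sub B F) → OLin F v e 1 := fun h => (olin_iff hlc 1).2 (linD_of_iso hF2 hs2 hW h)
  have i5 : Iso (sub B F) → ∀ p, ORul F v e p 1 := fun h p =>
    (orul_iff hCB hlc 1 p).2 (rulD_of_iso hF2 hs2 hW h _)
  have r2 : (∃ d, Odd d ∧ OSec F v e d) → Iso (sub B F) := by
    rintro ⟨d, hd, h⟩
    exact iso_of_secD hF2 hW hd ((osec_iff hlc d).1 h)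
  have r4 : (∃ d, Odd d ∧ OLin F v e d) → Iso (sub B F) := by
    rintro ⟨d, hd, h⟩
    exact iso_of_linD hF2 hW hd ((olin_iff hlc d).1 h)
  have r6 : (∃ p d, Odd d ∧ ORul F v e p d) → Iso (sub B F) := by
    rintro ⟨p, d, hd, h⟩
    exact iso_of_rulD hF2 hW hd ((orul_iff hCB hlc d p).1 h)
  tfae_have 1 → 2 := fun h => ⟨1, odd_one, h⟩
  tfae_have 2 → 3 := fun h => i3 (r2 h)
  tfae_have 3 → 4 := fun h => ⟨1, odd_one, h⟩
  tfae_have 4 → 5 := fun h => i5 (r4 h)
  tfae_have 5 → 6 := fun h => ⟨0, 1, odd_one, h 0⟩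
  tfae_have 6 → 1 := fun h => i1 (r6 h)
  tfae_finish

/-- very general cubics: no section -/
theorem no_sec {n : ℕ} (hn : 3 ≤ n) (at_ : S_AT) (hkm : k + m = n)
    {F : MvPolynomial (Fin (n + 2)) ℂ} (hF : F.IsHomogeneous 3) (hsm : Sm F)
    (hind : AlgebraicIndependent ℚ
      (fun β : {β : Fin (n + 2) →₀ ℕ // β.degree = 3} => coeff β.1 F))
    {v : Fin (k + 1) → Fin (n + 2) → ℂ} {e : Fin (m + 1) → Fin (n + 2) → ℂ}
    (hvF : ∀ b : Fin (k + 1) → ℂ, eval (fun i => ∑ l, b l * v l i) F = 0)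
    (hli : LinearIndependent ℂ (Fin.append v e)) : ¬ OSec F v e 1 := by
  intro h
  have hvl : LinearIndependent ℂ v := by
    have h1 := hli.comp (Fin.castAdd (m + 1)) (Fin.castAdd_injective _ _)
    have h2 : Fin.append v e ∘ Fin.castAdd (m + 1) = v := by
      funext a
      exact Fin.append_left _ _ _
    rwa [h2] at h1
  have key : ∀ (N : ℕ) (hN : N = k + 1 + (m + 1)) (F : MvPolynomial (Fin N) ℂ)
      (v : Fin (k + 1) → Fin N → ℂ) (e : Fin (m + 1) → Fin N → ℂ), F.IsHomogeneous 3 → Sm F →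
      (∀ b : Fin (k + 1) → ℂ, eval (fun i => ∑ l, b l * v l i) F = 0) →
      LinearIndependent ℂ v → LinearIndependent ℂ (Fin.append v e) → OSec F v e 1 →
      1 ≤ k ∧ Lr F v 1 := by
    rintro N rfl F v e hF hsm hvF hvl hli h
    obtain ⟨B, C, hBC, hCB, hBl, hBr, hlc, hW⟩ := Pool.Agent.U351.CH.adapt hvF hli
    have hF2 := sub_hom B hF
    have hs2 := sm_sub hBC hsm
    have hiso : Iso (sub B F) := iso_of_secD hF2 hW odd_one ((osec_iff hlc 1).1 h)
    have hk : 1 ≤ k := by
      by_contra hk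
      obtain rfl : k = 0 := by omega
      exact no_iso0 (by omega) hF2 hs2 hW hiso
    refine ⟨hk, ?_⟩
    obtain ⟨c', l, hl, hx⟩ := iso_sec hF2 hs2 hW hiso
    have h1 := par_fib hk hF2 hs2 hW c' l hl hx
    have h2 := fib_lc hCB (by omega) hF h1
    have h3 : (fun l => lc (fun s => B s) (Pi.single (Fin.castAdd (m + 1) l) 1 :
        Fin (k + 1 + (m + 1)) → ℂ)) = v := by
      funext l
      rw [← hBl l]
      funext i
      unfold lc
      rw [Finset.sum_eq_single (Fin.castAdd (m + 1) l)]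
      · rw [Pi.single_eq_same, one_mul]
        rfl
      · intro s _ hs
        rw [Pi.single_eq_of_ne hs, zero_mul]
      · intro h
        exact absurd (Finset.mem_univ _) h
    rw [← h3]
    exact h2.lr
  obtain ⟨-, M, _, _, L, t, x, s, w, β, γ, ht, htop, hG, hdd, hβ, hγ, hx⟩ :=
    key (n + 2) (by omega) F v e hF hsm hvF hvl hli h
  have h4 := sections_even spr desc at_ hn hF hsm hind (fun i l => v l i) hvF L t ht htop x hG s w
    β γ hβ hγ hx
  rw [hdd] at h4
  exact (by decide : ¬ Even 1) h4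

end

end Pool.Agent.U247.CP
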